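import Pool.Agent.P8H50.NK.Stm

set_option autoImplicit false

namespace Pool.Agent.P8H20.NK

open Pool.Agent.P8H50.NK

theorem spn : S_SPN := by
  intro n F hF hnz
  set W : Submodule ℂ (ℂ → ℂ) := Submodule.span ℂ (Set.range F) with hW
  have hfin : Module.Finite ℂ W := Module.Finite.span_of_finite ℂ (Set.finite_range F)
  set k := Module.finrank ℂ W with hk
  let b : Module.Basis (Fin k) ℂ W := Module.finBasis ℂ W
  have hmem : ∀ i, F i ∈ W := fun i => Submodule.subset_span ⟨i, rfl⟩
  have hA : ∀ i z, F i z = ∑ l, b.repr ⟨F i, hmem i⟩ l * (b l : ℂ → ℂ) z := by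
    intro i z
    have h1 := b.sum_repr ⟨F i, hmem i⟩
    have h2 := congrArg (fun w : W => (w : ℂ → ℂ) z) h1
    simp only [Submodule.coe_sum, Submodule.coe_smul, Finset.sum_apply, Pi.smul_apply,
      smul_eq_mul] at h2
    exact h2.symm
  have hB : ∀ l, ∃ c : Fin n → ℂ, ∑ i, c i • F i = (b l : ℂ → ℂ) := fun l =>
    (Submodule.mem_span_range_iff_exists_fun ℂ).1 (b l).2
  choose B hB using hB
  have hBA : ∀ l l', ∑ i, B l i * b.repr ⟨F i, hmem i⟩ l' = if l = l' then 1 else 0 := by
    intro l l'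
    have h1 : ∑ i, B l i • (⟨F i, hmem i⟩ : W) = b l := by
      apply Subtype.ext
      rw [Submodule.coe_sum]
      simpa using hB l
    have h2 := congrArg (fun w : W => b.repr w l') h1
    simp only [map_sum, map_smul, Finsupp.coe_finset_sum, Finset.sum_apply, Finsupp.coe_smul,
      Pi.smul_apply, smul_eq_mul, Module.Basis.repr_self] at h2
    rw [h2, Finsupp.single_apply]
  have hnzf : ∀ z, ∃ l, (b l : ℂ → ℂ) z ≠ 0 := by
    intro z
    by_contra hcon
    push Not at hcon
    obtain ⟨i, hi⟩ := hnz z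
    apply hi
    rw [hA i z]
    exact Finset.sum_eq_zero fun l _ => by rw [hcon l, mul_zero]
  refine ⟨k, fun l => (b l : ℂ → ℂ), fun i l => b.repr ⟨F i, hmem i⟩ l, B, ⟨?_, hnzf, ?_⟩, ?_, ?_,
    hA, hBA, ?_⟩
  · intro l
    have h1 : (b l : ℂ → ℂ) = fun z => ∑ i, B l i * F i z := by
      rw [← hB l]
      funext z
      simp
    rw [h1]
    exact Differentiable.fun_sum fun i _ => (hF i).const_mul _
  · intro c hc
    have h1 : ∑ l, c l • b l = 0 := by
      apply Subtype.ext
      rw [Submodule.coe_sum]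
      funext z
      have := hc z
      unfold lf at this
      simpa using this
    have h2 := Fintype.linearIndependent_iff.1 b.linearIndependent c h1
    exact funext h2
  · obtain ⟨l, -⟩ := hnzf 0
    have := l.2
    omega
  · have h1 := finrank_range_le_card (R := ℂ) F
    rw [Fintype.card_fin] at h1
    exact h1
  · intro hk1 z z'
    have hone : ∀ l l' : Fin k, l = l' := fun l l' => Fin.ext (by omega)
    obtain ⟨l0, h0⟩ := hnzf z
    obtain ⟨l1, h1⟩ := hnzf z'
    rw [hone l1 l0] at h1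
    have hsum : ∀ i w, F i w = b.repr ⟨F i, hmem i⟩ l0 * (b l0 : ℂ → ℂ) w := by
      intro i w
      rw [hA i w]
      exact Finset.sum_eq_single_of_mem l0 (Finset.mem_univ _) fun l _ hl => absurd (hone l l0) hl
    refine ⟨(b l0 : ℂ → ℂ) z' / (b l0 : ℂ → ℂ) z, div_ne_zero h1 h0, fun i => ?_⟩
    rw [hsum i z, hsum i z']
    field_simp

end Pool.Agent.P8H20.NK
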